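import Mathlib
import Pool.Agent.BC.Stmts

/-!
# SUP (squad BCX): bounded submartingales are almost constant in the mean on deep nodes
-/

set_option autoImplicit false

open Finset

noncomputable section

namespace Pool.Agent.BC.H48

theorem av_mono {t : ℕ} (m : ℕ) (G H : (Fin t → ℤ) → ℝ) (c : Fin t → ℤ)
    (h : ∀ r : Fin t → Fin (2 ^ m), G (dt m c r) ≤ H (dt m c r)) : av m G c ≤ av m H c := by
  unfold av
  rw [smul_eq_mul, smul_eq_mul]
  exact mul_le_mul_of_nonneg_left (sum_le_sum fun r _ => h r) (by positivity)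

theorem av_const {t : ℕ} (m : ℕ) (B : ℝ) (c : Fin t → ℤ) : av m (fun _ => B) c = B := by
  unfold av
  rw [sum_const, card_univ, Fintype.card_fun, Fintype.card_fin, Fintype.card_fin, nsmul_eq_mul,
    smul_eq_mul]
  push_cast
  have h : (((2 : ℝ) ^ m) ^ t) ≠ 0 := by positivity
  rw [← mul_assoc, inv_mul_cancel₀ h, one_mul]

theorem sup (tow : TowStmt) : SupStmt := by
  intro t F B hB hsub n c κ ε hκ hε
  classical
  have amono : ∀ (N : ℕ) (d : Fin t → ℤ) (m m' : ℕ),
      av m (F (N + m)) d ≤ av (m + m') (F (N + (m + m'))) d := by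
    intro N d m m'
    rw [(tow ℝ m m').1 t (F (N + (m + m'))) d]
    refine av_mono m _ _ d fun r => ?_
    have := hsub (N + m) m' (dt m d r)
    rwa [add_assoc] at this
  have amono' : ∀ (N : ℕ) (d : Fin t → ℤ) (m m' : ℕ), m ≤ m' →
      av m (F (N + m)) d ≤ av m' (F (N + m')) d := by
    intro N d m m' h
    obtain ⟨q, rfl⟩ := Nat.exists_eq_add_of_le h
    exact amono N d m q
  obtain ⟨a, ha⟩ : ∃ a : ℕ → ℝ, ∀ m, a m = av m (F (n + m)) c :=
    ⟨fun m => av m (F (n + m)) c, fun _ => rfl⟩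
  have hbdd : BddAbove (Set.range a) := by
    refine ⟨B, ?_⟩
    rintro _ ⟨m, rfl⟩
    rw [ha]
    calc av m (F (n + m)) c ≤ av m (fun _ => B) c := av_mono m _ _ c fun r => (hB _ _).2
      _ = B := av_const m B c
  obtain ⟨m₀, hm₀⟩ : ∃ m₀, (⨆ m, a m) - κ * ε < a m₀ := by
    apply exists_lt_of_lt_ciSup
    have := mul_pos hκ hε
    linarith
  refine ⟨m₀, fun m hm => ?_⟩
  -- the deviations are attained at a common depth
  have hM : ∀ r : Fin t → Fin (2 ^ m), ∃ q : ℕ,
      (¬ ∀ m', av m' (F (n + m + m')) (dt m c r) ≤ F (n + m) (dt m c r) + κ) →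
        F (n + m) (dt m c r) + κ < av q (F (n + m + q)) (dt m c r) := by
    intro r
    by_cases h : ∀ m', av m' (F (n + m + m')) (dt m c r) ≤ F (n + m) (dt m c r) + κ
    · exact ⟨0, fun h' => absurd h h'⟩
    · push Not at h
      obtain ⟨q, hq⟩ := h
      exact ⟨q, fun _ => hq⟩
  choose g hg using hM
  obtain ⟨M, hMM⟩ : ∃ M : ℕ, ∀ r, g r ≤ M :=
    ⟨univ.sup g, fun r => le_sup (mem_univ r)⟩
  have h1 : κ * bad m (fun d => ∀ m', av m' (F (n + m + m')) d ≤ F (n + m) d + κ) c ≤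
      a (m + M) - a m := by
    rw [ha, ha, (tow ℝ m M).1 t (F (n + (m + M))) c]
    unfold bad av
    simp only [smul_eq_mul]
    rw [← mul_sub, ← sum_sub_distrib]
    have h2 : ∀ x y : ℝ, κ * (x * y) = x * (κ * y) := fun x y => by ring
    rw [h2, mul_sum]
    refine mul_le_mul_of_nonneg_left (sum_le_sum fun r _ => ?_) (by positivity)
    have h3 : F (n + m) (dt m c r) ≤ av M (F (n + m + M)) (dt m c r) := hsub _ _ _
    have h3' : av M (F (n + m + M)) (dt m c r) = (((2 : ℝ) ^ M) ^ t)⁻¹ *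
        ∑ r_1 : Fin t → Fin (2 ^ M), F (n + (m + M)) (dt M (dt m c r) r_1) := by
      unfold av
      rw [smul_eq_mul, add_assoc]
    rw [← h3']
    split_ifs with h4
    · rw [mul_zero]
      linarith
    · rw [mul_one]
      have h5 := hg r h4
      have h6 := amono' (n + m) (dt m c r) (g r) M (hMM r)
      linarith
  have h2 : a (m + M) ≤ ⨆ m, a m := le_ciSup hbdd _
  have h3 : a m₀ ≤ a m := by
    rw [ha, ha]
    exact amono' n c m₀ m hm
  have h4 : κ * bad m (fun d => ∀ m', av m' (F (n + m + m')) d ≤ F (n + m) d + κ) c ≤ κ * ε := by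
    linarith
  exact le_of_mul_le_mul_left h4 hκ

end Pool.Agent.BC.H48
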